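import Pool.Agent.V11320.QS.Fin

/-!
# MP_002529_pr, Q1: the quenched survival function is analytic on `[p_c, 1)`

`gw q` is the law of the family of the numbers of children of all words (independent, with
law `q`), which encodes the Galton–Watson tree; `quenched t p` is the probability that the open
cluster of the root of the tree `t` is infinite under Bernoulli percolation with parameter `p`.
-/

open MeasureTheory Pool.Agent.V11320.QS

namespace Pool.Agent.Results.MP_002529_pr.Analytic

/-- If the offspring distribution `q` has an exponential moment and mean `m > 1`, then almost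
surely `p ↦ g(T, p)` is on `[1/m, 1)` the restriction of a real-analytic function defined on an
open interval `(a, 1)` with `a < 1/m`. -/
theorem result (q : PMF ℕ)
    (hexp : ∃ l > 0, Summable fun n : ℕ => (q n).toReal * Real.exp (l * n))
    (hm : 1 < mean q) :
    ∀ᵐ t ∂gw q, ∃ a < (mean q)⁻¹, ∃ F : ℝ → ℝ, AnalyticOnNhd ℝ F (Set.Ioo a 1) ∧
      ∀ p ∈ Set.Ico (mean q)⁻¹ 1, F p = quenched t p :=
  main q hexp hm

end Pool.Agent.Results.MP_002529_pr.Analytic
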